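import Pool.Agent.Work.MP_8f87b2_base.TV

/-!
MP_8f87b2_co: the recursion `w = C(u, e)`. A Dyck word `w` is obtained from exactly one pair (`u` Dyck word of size `j`,
`e : List ℕ` of length `2 j + 1`, the extras of the gaps of the cyclic word `sl u`) by putting
`(1 0)^(e_i + [u_i u_(i+1) = 1 0])` behind the letter `u_i`; `T` acts on `u`, the extras stay in their gaps.
-/

namespace Pool.OddHC

open Finset BinaryTree

/-- `(1 0)^n` -/
def ud : ℕ → List Bool
  | 0 => []
  | n + 1 => true :: false :: ud n

/-- `(0 1)^n` -/
def du : ℕ → List Bool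
  | 0 => []
  | n + 1 => false :: true :: du n

theorem ud_length (n : ℕ) : (ud n).length = 2 * n := by
  induction n with
  | zero => rfl
  | succ n ih => rw [ud, List.length_cons, List.length_cons, ih]; ring

theorem ud_not (n : ℕ) : (ud n).map not = du n := by
  induction n with
  | zero => rfl
  | succ n ih => rw [ud, du, List.map_cons, List.map_cons, ih]; rfl

theorem zero_ud (n : ℕ) (l : List Bool) : false :: (ud n ++ l) = du n ++ false :: l := by
  induction n with
  | zero => rfl
  | succ n ih => rw [ud, du, List.cons_append, List.cons_append, List.cons_append,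
      List.cons_append, ih]

theorem one_du (n : ℕ) (l : List Bool) : true :: (du n ++ l) = ud n ++ true :: l := by
  induction n with
  | zero => rfl
  | succ n ih => rw [ud, du, List.cons_append, List.cons_append, List.cons_append,
      List.cons_append, ih]

theorem ud_succ (n : ℕ) (l : List Bool) : ud (n + 1) ++ l = true :: (du n ++ false :: l) := by
  rw [one_du, ud, List.cons_append, List.cons_append]
  induction n with
  | zero => rfl
  | succ n ih => rw [ud, List.cons_append, List.cons_append, List.cons_append, List.cons_append, ← ih]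

/-- number of the peaks at the place between the letters `b`, `c` -/
def pk01 (b c : Bool) : ℕ := if b && !c then 1 else 0

/-- linear form of `C(u, e)`: the letter behind the last one is `z` -/
def CL (z : Bool) : List Bool → List ℕ → List Bool
  | [], _ => []
  | b :: l, e => b :: (ud (e.headD 0 + pk01 b (l.headD z)) ++ CL z l e.tail)

/-- linear form of the complement -/
def AL : List Bool → List ℕ → List Bool
  | [], _ => []
  | b :: l, e => b :: (du (e.headD 0 + pk01 (!b) (!(l.headD false))) ++ AL l e.tail)

theorem CL_append (z : Bool) (l₂ : List Bool) (e₂ : List ℕ) : ∀ (l₁ : List Bool) (e₁ : List ℕ),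
    l₁.length = e₁.length →
    CL z (l₁ ++ l₂) (e₁ ++ e₂) = CL (l₂.headD z) l₁ e₁ ++ CL z l₂ e₂ := by
  intro l₁
  induction l₁ with
  | nil =>
    intro e₁ h
    have : e₁ = [] := List.eq_nil_of_length_eq_zero h.symm
    subst this
    rfl
  | cons b l₁ ih =>
    intro e₁ h
    cases e₁ with
    | nil => simp at h
    | cons n e₁ =>
      rw [List.cons_append, List.cons_append, CL, CL]
      have h1 : (l₁ ++ l₂).headD z = l₁.headD (l₂.headD z) := by
        cases l₁ <;> rfl
      rw [h1, List.headD_cons, List.tail_cons, ih e₁ (by simpa using h), List.headD_cons,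
        List.tail_cons]
      simp

/-- the two forms of the complement -/
theorem AL_CL : ∀ (l : List Bool) (e : List ℕ),
    (l.headD true = false → ∃ x, AL l e = false :: x ∧ CL false l e = x ++ [false]) ∧
    (l.headD false = true → CL false l e = true :: (AL l e ++ [false])) := by
  intro l
  induction l with
  | nil => intro e; simp
  | cons b l ih =>
    intro e
    obtain ⟨i1, i2⟩ := ih e.tail
    rw [AL, CL, List.headD_cons, List.headD_cons]
    cases l with
    | nil =>
      rw [AL, CL, List.headD_nil, List.append_nil, List.append_nil]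
      cases b
      · refine ⟨fun _ => ⟨du (e.headD 0), ?_, ?_⟩, by simp⟩
        · simp [pk01]
        · have h := zero_ud (e.headD 0) []
          simpa [pk01] using h
      · refine ⟨by simp, fun _ => ?_⟩
        have h := ud_succ (e.headD 0) []
        simpa [pk01] using h
    | cons c l =>
      rw [List.headD_cons] at i1 i2 ⊢
      cases b <;> cases c
      · refine ⟨fun _ => ?_, by simp⟩
        obtain ⟨x, hx, hy⟩ := i1 rfl
        refine ⟨du (e.headD 0) ++ false :: x, ?_, ?_⟩
        · rw [hx]
          simp [pk01]
        · rw [hy]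
          have h := zero_ud (e.headD 0) (x ++ [false])
          simpa [pk01] using h
      · refine ⟨fun _ => ?_, by simp⟩
        have hy := i2 rfl
        refine ⟨du (e.headD 0 + 1) ++ AL (true :: l) e.tail, ?_, ?_⟩
        · simp [pk01]
        · rw [hy]
          have h := zero_ud (e.headD 0) (true :: (AL (true :: l) e.tail ++ [false]))
          simp only [pk01, Bool.false_and, Bool.false_eq_true, if_false, Nat.add_zero]
          rw [h]
          have h2 : ∀ (n : ℕ) (l : List Bool), du n ++ false :: true :: l = du (n + 1) ++ l := by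
            intro n
            induction n with
            | zero => intro l; rfl
            | succ n ih => intro l; rw [du, List.cons_append, List.cons_append, ih]; rfl
          rw [h2, List.append_assoc]
      · refine ⟨by simp, fun _ => ?_⟩
        obtain ⟨x, hx, hy⟩ := i1 rfl
        rw [hx, hy]
        have h := ud_succ (e.headD 0) (x ++ [false])
        simpa [pk01] using h
      · refine ⟨by simp, fun _ => ?_⟩
        have hy := i2 rfl
        rw [hy]
        have h := one_du (e.headD 0) (AL (true :: l) e.tail ++ [false])
        simp only [pk01, Bool.true_and, Bool.not_true, Bool.false_eq_true, if_false,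
          Nat.add_zero, Bool.false_and]
        rw [← h]
        simp

/-- the complement of the linear form -/
theorem CL_not : ∀ (l : List Bool) (e : List ℕ), (∀ h : l ≠ [], l.getLast h = false) →
    (CL false l e).map not = AL (l.map not) e := by
  intro l
  induction l with
  | nil => intro e _; rfl
  | cons b l ih =>
    intro e h
    rw [CL, List.map_cons, List.map_cons, AL, List.map_append, ud_not]
    cases l with
    | nil =>
      have hb : b = false := h (by simp)
      subst hb
      rfl
    | cons c l =>
      rw [ih e.tail (fun _ => by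
        have := h (by simp)
        rw [List.getLast_cons (by simp)] at this
        exact this)]
      rw [List.map_cons, List.headD_cons, List.headD_cons, Bool.not_not, Bool.not_not]

/-! ### Trees -/

/-- `n` leaves in front -/
def lv : ℕ → BinaryTree Unit → BinaryTree Unit
  | 0, t => t
  | n + 1, t => .nil △ lv n t

theorem wd_lv (n : ℕ) (t : BinaryTree Unit) : wd (lv n t) = ud n ++ wd t := by
  induction n with
  | zero => rfl
  | succ n ih => rw [lv, wd_node, ih]; rfl

/-- one more leaf in the first gap, if the tree is empty -/
def bump : BinaryTree Unit → List ℕ → List ℕ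
  | .nil, e => (e.headD 0 + 1) :: e.tail
  | .node _ _ _, e => e

/-- the word `C(u, e)` -/
def ins : BinaryTree Unit → List ℕ → BinaryTree Unit
  | .nil, e => lv (e.headD 0) .nil
  | .node _ A B, e => lv (e.headD 0) (ins A (bump A (e.tail.take (2 * A.numNodes + 1))) △
      ins B (e.drop (2 * A.numNodes + 2)))

theorem split_e {A B : BinaryTree Unit} {e : List ℕ}
    (h : e.length = 2 * (A △ B).numNodes + 1) : ∃ (n : ℕ) (a b : List ℕ), e = n :: (a ++ b) ∧
    a.length = 2 * A.numNodes + 1 ∧ b.length = 2 * B.numNodes + 1 ∧
    e.tail.take (2 * A.numNodes + 1) = a ∧ e.drop (2 * A.numNodes + 2) = b := by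
  change e.length = 2 * (A.numNodes + B.numNodes + 1) + 1 at h
  cases e with
  | nil => simp at h
  | cons n e =>
    rw [List.length_cons] at h
    refine ⟨n, e.take (2 * A.numNodes + 1), e.drop (2 * A.numNodes + 1), ?_, ?_, ?_, rfl, rfl⟩
    · rw [List.take_append_drop]
    · rw [List.length_take]
      omega
    · rw [List.length_drop]
      omega

/-- the linear form of a tree in a context -/
theorem CL_tree (z : Bool) : ∀ (t : BinaryTree Unit) (b : Bool) (s : List Bool) (e f : List ℕ),
    e.length = 2 * t.numNodes + 1 → s.headD z = false →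
    CL z (b :: (wd t ++ s)) (e ++ f) =
      b :: (wd (ins t (if b then bump t e else e)) ++ CL z s f) := by
  intro t
  induction t with
  | nil =>
    intro b s e f he hs
    obtain ⟨n, rfl⟩ : ∃ n, e = [n] := List.length_eq_one_iff.1 (by simpa using he)
    rw [wd, List.nil_append, CL, hs]
    cases b
    · simp [ins, wd_lv, wd, pk01]
    · simp [ins, wd_lv, wd, pk01, bump]
  | node _ A B ihA ihB =>
    intro b s e f he hs
    obtain ⟨n, a, c, h1, h2, h3, h4, h5⟩ := split_e he
    have hb : (if b then bump (A △ B) e else e) = e := by cases b <;> rfl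
    have e0 : (BinaryTree.node () A B) = A △ B := rfl
    rw [e0, hb, ins, h4, h5, wd_lv, wd_node, wd_node, h1]
    have e1 : (b :: (true :: (wd A ++ false :: wd B) ++ s)) =
        b :: (true :: (wd A ++ false :: (wd B ++ s))) := by simp
    have e2 : n :: (a ++ c) ++ f = n :: (a ++ (c ++ f)) := by simp
    rw [e1, e2, CL, List.headD_cons, List.headD_cons, List.tail_cons, List.headD_cons,
      ihA true (false :: (wd B ++ s)) a (c ++ f) h2 rfl, ihB false s c f h3 hs]
    have e3 : pk01 b true = 0 := by cases b <;> rfl
    rw [e3]
    simp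

/-- `C(u, e)` as a cyclic word -/
theorem sl_ins (t : BinaryTree Unit) (e : List ℕ) (he : e.length = 2 * t.numNodes + 1) :
    sl (ins t e) = CL false (sl t) e := by
  have h := CL_tree false t false [] e [] he rfl
  rw [List.append_nil, List.append_nil, CL, List.append_nil] at h
  unfold sl
  rw [h]
  rfl

theorem wd_last (t : BinaryTree Unit) (h : wd t ≠ []) : (wd t).getLast h = false := by
  induction t with
  | nil => exact absurd rfl h
  | node _ A B _ ihB =>
    cases B with
    | nil => simp [wd]
    | node _ B₁ B₂ =>
      have h1 : wd (BinaryTree.node () B₁ B₂) ≠ [] := by simp [wd]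
      have h2 := ihB h1
      have h3 : wd (BinaryTree.node () A (BinaryTree.node () B₁ B₂)) =
          (true :: (wd A ++ [false])) ++ wd (BinaryTree.node () B₁ B₂) := by
        rw [wd]; simp
      simp only [h3]
      rw [List.getLast_append_of_ne_nil _ h1]
      exact h2

/-- the complement of `C(u, e)`, rotated by one place, is `C(complement of u, e)` -/
theorem cw_ins (t : BinaryTree Unit) (e : List ℕ) (he : e.length = 2 * t.numNodes + 1) :
    (cw (ins t e)).rotate 1 = CL false (cw t) e := by
  have h1 := sl_ins t e he
  unfold sl at h1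
  have h2 : wd (ins t e) = ud (e.headD 0) ++ CL false (wd t) e.tail := by
    rw [CL, List.cons.injEq] at h1
    rw [h1.2]
    rfl
  have h3 : cw (ins t e) = AL (cw t) e := by
    unfold cw
    rw [h2, List.map_cons, List.map_append, ud_not, CL_not (wd t) e.tail (wd_last t),
      List.map_cons, Bool.not_true, AL]
    have h4 : pk01 (!false) (!((wd t).map not).headD false) = 0 := by
      cases t with
      | nil => rfl
      | node _ A B => rfl
    rw [h4, Nat.add_zero]
  obtain ⟨x, hx, hy⟩ := (AL_CL (cw t) e).1 rfl
  rw [h3, hy, hx, List.rotate_cons_succ, List.rotate_zero]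

/-- rotations of `C(l, e)` -/
theorem CL_rotate {l : List Bool} {e : List ℕ} (h : l.length = e.length) {r : ℕ}
    (hr : r < l.length) :
    (CL (l.headD false) l e).rotate (CL ((l.rotate r).headD false) (l.take r) (e.take r)).length =
      CL ((l.rotate r).headD false) (l.rotate r) (e.rotate r) := by
  have q1 : l.rotate r = l.drop r ++ l.take r := List.rotate_eq_drop_append_take hr.le
  have q2 : e.rotate r = e.drop r ++ e.take r := List.rotate_eq_drop_append_take (by omega)
  rw [q1, q2]
  obtain ⟨a, ha⟩ : ∃ a, a = l.take r := ⟨_, rfl⟩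
  obtain ⟨b, hb⟩ : ∃ b, b = l.drop r := ⟨_, rfl⟩
  obtain ⟨c, hc⟩ : ∃ c, c = e.take r := ⟨_, rfl⟩
  obtain ⟨d, hd⟩ : ∃ d, d = e.drop r := ⟨_, rfl⟩
  have hl : l = a ++ b := by rw [ha, hb, List.take_append_drop]
  have hel : e = c ++ d := by rw [hc, hd, List.take_append_drop]
  have h1 : a.length = c.length := by rw [ha, hc, List.length_take, List.length_take, h]
  have h2 : b.length = d.length := by rw [hb, hd, List.length_drop, List.length_drop, h]
  have hb0 : b ≠ [] := by
    intro h3
    have h4 := congrArg List.length hb
    rw [h3, List.length_drop, List.length_nil] at h4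
    omega
  rw [← ha, ← hb, ← hc, ← hd]
  obtain ⟨z, hz⟩ : ∃ z, z = l.headD false := ⟨_, rfl⟩
  rw [← hz]
  nth_rewrite 1 [hl, hel]
  rw [CL_append _ _ _ _ _ h1, CL_append _ _ _ _ _ h2]
  have h3 : b.headD z = (b ++ a).headD false := by
    cases b with
    | nil => exact absurd rfl hb0
    | cons x b => rfl
  rw [h3, List.rotate_append_length_eq]
  cases a with
  | nil =>
    rw [CL]
    have h5 : (b ++ []).headD false = z := by
      rw [List.append_nil, hz, hl]
      rfl
    rw [List.headD_nil, h5, List.append_nil]
  | cons x a =>
    have h4 : (x :: a).headD ((b ++ x :: a).headD false) = z := by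
      rw [hz, hl]
      rfl
    rw [h4]

/-- length of a linear form -/
def dsc (z : Bool) : List Bool → ℕ
  | [] => 0
  | b :: l => pk01 b (l.headD z) + dsc z l

theorem CL_length (z : Bool) : ∀ (l : List Bool) (e : List ℕ), l.length = e.length →
    (CL z l e).length = l.length + 2 * e.sum + 2 * dsc z l := by
  intro l
  induction l with
  | nil =>
    intro e h
    have : e = [] := List.eq_nil_of_length_eq_zero h.symm
    subst this
    rfl
  | cons b l ih =>
    intro e h
    cases e with
    | nil => simp at h
    | cons n e =>
      rw [CL, List.length_cons, List.length_append, ud_length, List.headD_cons, List.tail_cons,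
        ih e (by simpa using h), List.length_cons, List.sum_cons, dsc]
      ring

/-! ### The number of peaks -/

/-- `1` for the empty tree -/
def leaf : BinaryTree Unit → ℕ
  | .nil => 1
  | .node _ _ _ => 0

/-- number of the peaks -/
def pkn : BinaryTree Unit → ℕ
  | .nil => 0
  | .node _ A B => leaf A + pkn A + pkn B

theorem lv_num (n : ℕ) (t : BinaryTree Unit) : (lv n t).numNodes = n + t.numNodes := by
  induction n with
  | zero => rw [lv, zero_add]
  | succ n ih =>
    change (BinaryTree.nil △ lv n t).numNodes = _
    change 0 + (lv n t).numNodes + 1 = _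
    rw [ih]
    ring

theorem lv_pkn (n : ℕ) (t : BinaryTree Unit) : pkn (lv n t) = n + pkn t := by
  induction n with
  | zero => rw [lv, zero_add]
  | succ n ih =>
    rw [lv, pkn, ih]
    change 1 + 0 + (n + pkn t) = _
    ring

theorem sum_bump {A : BinaryTree Unit} {e : List ℕ} (h : e ≠ []) :
    (bump A e).sum = e.sum + leaf A := by
  cases e with
  | nil => exact absurd rfl h
  | cons n e =>
    cases A with
    | nil =>
      rw [bump, List.headD_cons, List.tail_cons, List.sum_cons, List.sum_cons, leaf]
      ring
    | node _ A B => rfl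

theorem bump_length {A : BinaryTree Unit} {e : List ℕ} (h : e ≠ []) :
    (bump A e).length = e.length := by
  cases e with
  | nil => exact absurd rfl h
  | cons n e =>
    cases A with
    | nil => rw [bump, List.tail_cons, List.length_cons, List.length_cons]
    | node _ A B => rfl

theorem ins_ne_nil (A : BinaryTree Unit) (e : List ℕ) : ins A (bump A e) ≠ .nil := by
  cases A with
  | nil =>
    rw [bump, ins, List.headD_cons, lv]
    simp
  | node _ A B =>
    rw [bump, ins]
    cases e.headD 0 with
    | zero => rw [lv]; simp
    | succ n => rw [lv]; simp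

theorem ins_num : ∀ (t : BinaryTree Unit) (e : List ℕ), e.length = 2 * t.numNodes + 1 →
    (ins t e).numNodes = t.numNodes + pkn t + e.sum ∧ pkn (ins t e) = pkn t + e.sum := by
  intro t
  induction t with
  | nil =>
    intro e he
    obtain ⟨n, rfl⟩ : ∃ n, e = [n] := List.length_eq_one_iff.1 (by simpa using he)
    rw [ins, lv_num, lv_pkn]
    simp [pkn]
  | node _ A B ihA ihB =>
    intro e he
    obtain ⟨n, a, c, h1, h2, h3, h4, h5⟩ := split_e he
    have ha : a ≠ [] := by
      intro h
      rw [h] at h2
      simp at h2
    rw [ins, h4, h5, lv_num, lv_pkn]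
    have i2 := ihB c h3
    have i1 := ihA (bump A a) (by rw [bump_length ha, h2])
    have e1 : (ins A (bump A a) △ ins B c).numNodes =
        (ins A (bump A a)).numNodes + (ins B c).numNodes + 1 := rfl
    have e2 : (BinaryTree.node () A B).numNodes = A.numNodes + B.numNodes + 1 := rfl
    have e3 : leaf (ins A (bump A a)) = 0 := by
      have := ins_ne_nil A a
      cases h : ins A (bump A a) with
      | nil => exact absurd h this
      | node _ _ _ => rfl
    have e4 : pkn (ins A (bump A a) △ ins B c) =
        leaf (ins A (bump A a)) + pkn (ins A (bump A a)) + pkn (ins B c) := rfl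
    have e5 : pkn (BinaryTree.node () A B) = leaf A + pkn A + pkn B := rfl
    rw [e1, e4, e3, e2, e5, i1.1, i1.2, i2.1, i2.2, sum_bump ha, h1, List.headD_cons,
      List.sum_cons, List.sum_append]
    constructor <;> ring

/-! ### The reduced word -/

/-- inverse of `bump` -/
def unbump : BinaryTree Unit → List ℕ → List ℕ
  | .nil, e => (e.headD 0 - 1) :: e.tail
  | .node _ _ _, e => e

/-- step of `red` -/
def redc : BinaryTree Unit → BinaryTree Unit × List ℕ → BinaryTree Unit × List ℕ →
    BinaryTree Unit × List ℕ
  | .nil, _, rb => (rb.1, (rb.2.headD 0 + 1) :: rb.2.tail)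
  | .node _ _ _, ra, rb => (ra.1 △ rb.1, 0 :: (unbump ra.1 ra.2 ++ rb.2))

/-- the reduced word and the extras -/
def red : BinaryTree Unit → BinaryTree Unit × List ℕ
  | .nil => (.nil, [0])
  | .node _ A B => redc A (red A) (red B)

theorem red_len (t : BinaryTree Unit) : (red t).2.length = 2 * (red t).1.numNodes + 1 := by
  induction t with
  | nil => rfl
  | node _ A B ihA ihB =>
    rw [red]
    cases A with
    | nil =>
      rw [redc]
      simp only
      cases h : (red B).2 with
      | nil => rw [h] at ihB; simp at ihB
      | cons n e =>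
        rw [h] at ihB
        rw [← ihB]
        rfl
    | node _ A₁ A₂ =>
      rw [redc]
      simp only
      obtain ⟨r, hr⟩ : ∃ r, r = red (BinaryTree.node () A₁ A₂) := ⟨_, rfl⟩
      have e0 : red (BinaryTree.node () A₁ A₂) = r := hr.symm
      rw [e0] at ihA ⊢
      have e1 : (r.1 △ (red B).1).numNodes = r.1.numNodes + (red B).1.numNodes + 1 := rfl
      have e2 : (unbump r.1 r.2).length = r.2.length := by
        cases h : r.1 with
        | nil =>
          cases h2 : r.2 with
          | nil => rw [h2] at ihA; simp at ihA
          | cons n e => rfl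
        | node _ _ _ => rfl
      rw [List.length_cons, List.length_append, e2, ihA, ihB, e1]
      ring

theorem red_pos {t : BinaryTree Unit} (h : t ≠ .nil) (h' : (red t).1 = .nil) :
    1 ≤ (red t).2.headD 0 := by
  cases t with
  | nil => exact absurd rfl h
  | node _ A B =>
    rw [red] at h' ⊢
    cases A with
    | nil => rw [redc, List.headD_cons]; omega
    | node _ _ _ => rw [redc] at h'; simp at h'

theorem ins_succ (t : BinaryTree Unit) (n : ℕ) (e : List ℕ) :
    ins t ((n + 1) :: e) = .nil △ ins t (n :: e) := by
  cases t with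
  | nil => rfl
  | node _ A B => rfl

/-- EXISTENCE -/
theorem ins_red (t : BinaryTree Unit) : ins (red t).1 (red t).2 = t := by
  induction t with
  | nil => rfl
  | node _ A B ihA ihB =>
    rw [red]
    cases A with
    | nil =>
      rw [redc]
      simp only
      rw [ins_succ]
      have h1 : (red B).2.headD 0 :: (red B).2.tail = (red B).2 := by
        have := red_len B
        cases h : (red B).2 with
        | nil => rw [h] at this; simp at this
        | cons n e => rfl
      rw [h1, ihB]
    | node _ A₁ A₂ =>
      rw [redc]
      simp only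
      have hp := @red_pos (BinaryTree.node () A₁ A₂) (by simp)
      have hl := red_len (BinaryTree.node () A₁ A₂)
      obtain ⟨r, hr⟩ : ∃ r, r = red (BinaryTree.node () A₁ A₂) := ⟨_, rfl⟩
      have e0 : red (BinaryTree.node () A₁ A₂) = r := hr.symm
      rw [e0] at ihA hp hl ⊢
      have e2 : bump r.1 (unbump r.1 r.2) = r.2 := by
        cases h : r.1 with
        | nil =>
          have hp' := hp h
          cases h2 : r.2 with
          | nil => rw [h2] at hl; simp at hl
          | cons n e =>
            rw [h2, List.headD_cons] at hp'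
            rw [unbump, bump, List.headD_cons, List.tail_cons, List.headD_cons, List.tail_cons,
              Nat.sub_add_cancel hp']
        | node _ _ _ => rfl
      have e3 : (unbump r.1 r.2).length = 2 * r.1.numNodes + 1 := by
        rw [← hl]
        cases h : r.1 with
        | nil =>
          cases h2 : r.2 with
          | nil => rw [h2] at hl; simp at hl
          | cons n e => rfl
        | node _ _ _ => rfl
      rw [ins, List.headD_cons, lv, List.tail_cons, List.take_left' e3]
      have e4 : List.drop (2 * r.1.numNodes + 2) (0 :: (unbump r.1 r.2 ++ (red B).2)) =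
          (red B).2 := by
        rw [List.drop_succ_cons, List.drop_left' e3]
      rw [e4, e2, ihA, ihB]

theorem red_lv (n : ℕ) (t : BinaryTree Unit) :
    red (lv n t) = ((red t).1, ((red t).2.headD 0 + n) :: (red t).2.tail) := by
  induction n with
  | zero =>
    rw [lv, add_zero]
    have := red_len t
    cases h : (red t).2 with
    | nil => rw [h] at this; simp at this
    | cons n e => rw [List.headD_cons, List.tail_cons, ← h]
  | succ n ih =>
    rw [lv, red, redc, ih]
    simp only [List.headD_cons, List.tail_cons]
    rw [add_assoc]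

/-- UNIQUENESS -/
theorem red_ins : ∀ (t : BinaryTree Unit) (e : List ℕ), e.length = 2 * t.numNodes + 1 →
    red (ins t e) = (t, e) := by
  intro t
  induction t with
  | nil =>
    intro e he
    obtain ⟨n, rfl⟩ : ∃ n, e = [n] := List.length_eq_one_iff.1 (by simpa using he)
    rw [ins, red_lv]
    simp [red]
  | node _ A B ihA ihB =>
    intro e he
    obtain ⟨n, a, c, h1, h2, h3, h4, h5⟩ := split_e he
    have ha : a ≠ [] := by
      intro h
      rw [h] at h2
      simp at h2
    rw [ins, h4, h5, red_lv, red]
    have i2 := ihB c h3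
    have i1 := ihA (bump A a) (by rw [bump_length ha, h2])
    have hne := ins_ne_nil A a
    rw [i1, i2]
    cases h : ins A (bump A a) with
    | nil => exact absurd h hne
    | node _ _ _ =>
      rw [redc]
      simp only [List.headD_cons, List.tail_cons]
      rw [h1, List.headD_cons, zero_add]
      cases A with
      | nil =>
        cases a with
        | nil => exact absurd rfl ha
        | cons m a =>
          rw [bump, unbump]
          simp
      | node _ _ _ => rfl

theorem ins_inj {t t' : BinaryTree Unit} {e e' : List ℕ} (he : e.length = 2 * t.numNodes + 1)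
    (he' : e'.length = 2 * t'.numNodes + 1) (h : ins t e = ins t' e') : t = t' ∧ e = e' := by
  have h1 := red_ins t e he
  rw [h, red_ins t' e' he', Prod.mk.injEq] at h1
  exact ⟨h1.1.symm, h1.2.symm⟩

/-! ### The recursion -/

theorem cw_rot {k : ℕ} (t : X k) : (cw t.1).rotate (Vo t).val = sl (TF t).1 := by
  have h1 := TF_spec t 0
  rw [zero_add] at h1
  have h2 := rot_of_st (cw_len t) (sl_len (TF t)) h1.symm
  rwa [sub_zero] at h2

/-- RECURSION, first form -/
theorem TF_ins' {j k : ℕ} (u : X j) (e : List ℕ) (he : e.length = 2 * j + 1) (w : X k)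
    (hw : w.1 = ins u.1 e) :
    (TF w).1 = ins (TF u).1 (e.rotate (Vo u).val) ∧
      Vo w = ((1 + (CL false ((cw u.1).take (Vo u).val) (e.take (Vo u).val)).length : ℕ) :
        ZMod (2 * k + 1)) := by
  obtain ⟨d, hd⟩ : ∃ d, d = (Vo u).val := ⟨_, rfl⟩
  have hd2 : d < 2 * j + 1 := by rw [hd]; exact ZMod.val_lt _
  have h1 := cw_rot u
  rw [← hd] at h1 ⊢
  have h3 : (cw w.1).rotate 1 = CL false (cw u.1) e := by
    rw [hw]
    exact cw_ins u.1 e (by rw [X_num]; exact he)
  have h4 := CL_rotate (l := cw u.1) (e := e) (by rw [cw_len u, he]) (r := d)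
    (by rw [cw_len u]; exact hd2)
  rw [h1] at h4
  have h5 : (sl (TF u).1).headD false = false := rfl
  have h6 : (cw u.1).headD false = false := rfl
  rw [h5, h6, ← sl_ins (TF u).1 (e.rotate d) (by rw [List.length_rotate, X_num, he]), ← h3,
    List.rotate_rotate] at h4
  obtain ⟨L, hL⟩ : ∃ L, L = (CL false ((cw u.1).take d) (e.take d)).length := ⟨_, rfl⟩
  rw [← hL] at h4 ⊢
  have h7 : (ins (TF u).1 (e.rotate d)).numNodes = k := by
    have := congrArg List.length h4
    rw [List.length_rotate, cw_len, sl_length] at this
    omega
  obtain ⟨w', hw'⟩ : ∃ w' : X k, w'.1 = ins (TF u).1 (e.rotate d) :=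
    ⟨⟨_, mem_treesOfNumNodesEq.2 h7⟩, rfl⟩
  rw [← hw'] at h4 ⊢
  have h8 := st_rotate (cw w.1) (cw_len w) 0 (1 + L)
  rw [h4, zero_add, ← TF_spec w 0 |>.trans rfl] at h8
  rw [zero_add] at h8
  have h9 : io w' ((1 + L : ℕ) : ZMod (2 * k + 1)) = io (TF w) (Vo w) := h8
  obtain ⟨h10, h11⟩ := io_inj h9
  exact ⟨by rw [h10], h11.symm⟩

/-- ascents -/
theorem asc_dsc : ∀ (m : List Bool),
    dsc false (m.map not) + (if m.headD true then 1 else 0) = dsc true m + 1 := by
  intro m
  induction m with
  | nil => rfl
  | cons b m ih =>
    rw [List.map_cons, dsc, dsc, List.headD_cons]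
    cases m with
    | nil => cases b <;> rfl
    | cons c m =>
      rw [List.headD_cons] at ih
      rw [List.map_cons, List.headD_cons] at *
      rw [List.headD_cons]
      cases b <;> cases c <;> simp [pk01] at ih ⊢ <;> omega

theorem dsc_append (z : Bool) (l : List Bool) : ∀ m : List Bool,
    dsc z (m ++ l) = dsc (l.headD z) m + dsc z l := by
  intro m
  induction m with
  | nil => simp [dsc]
  | cons b m ih =>
    rw [List.cons_append, dsc, dsc, ih]
    have : (m ++ l).headD z = m.headD (l.headD z) := by cases m <;> rfl
    rw [this]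
    ring

/-- peaks before the first maximum -/
theorem dsc_cw {j : ℕ} (u : X j) :
    dsc false ((cw u.1).take (Vo u).val) = dsc true ((sl u.1).take ((Vo u).val + 1)) := by
  have h1 := cw_rot u
  have hlt : (Vo u).val < 2 * j + 1 := ZMod.val_lt _
  obtain ⟨d, hd⟩ : ∃ d, d = (Vo u).val := ⟨_, rfl⟩
  rw [← hd] at h1 hlt ⊢
  have hcl := cw_len u
  rw [List.rotate_eq_drop_append_take (by omega)] at h1
  unfold sl cw at *
  cases d with
  | zero => rfl
  | succ d =>
    have h2 : (wd u.1)[d]? = some true := by
      have h3 := congrArg (fun l : List Bool => l[0]?) h1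
      rw [List.getElem?_append_left (by rw [List.length_drop]; omega), List.getElem?_drop,
        List.map_cons, Nat.add_zero, List.getElem?_cons_succ, List.getElem?_map] at h3
      cases h4 : (wd u.1)[d]? with
      | none => rw [h4] at h3; simp at h3
      | some b => rw [h4] at h3; cases b <;> simp at h3 ⊢
    have h5 : (wd u.1).take (d + 1) = (wd u.1).take d ++ [true] := by
      rw [List.take_add_one, h2]
      rfl
    rw [List.map_cons, List.take_succ_cons, List.take_succ_cons, h5, Bool.not_true, dsc, dsc,
      ← List.map_take]
    have h6 := asc_dsc ((wd u.1).take d)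
    have h7 : ((wd u.1).take d).headD true = true := by
      cases d with
      | zero => rfl
      | succ d =>
        cases h : u.1 with
        | nil => rfl
        | node _ A B => rfl
    rw [h7] at h6
    rw [dsc_append]
    simp [dsc, pk01] at h6 ⊢
    omega

/-- RECURSION: the extras stay in their gaps, and the displacement -/
theorem TF_ins {j k : ℕ} (u : X j) (e : List ℕ) (he : e.length = 2 * j + 1) (w : X k)
    (hw : w.1 = ins u.1 e) :
    (TF w).1 = ins (TF u).1 (e.rotate (Vo u).val) ∧
      Vo w = (((Vo u).val + 1 + 2 * (e.take (Vo u).val).sum +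
        2 * dsc true ((sl u.1).take ((Vo u).val + 1)) : ℕ) : ZMod (2 * k + 1)) := by
  obtain ⟨h1, h2⟩ := TF_ins' u e he w hw
  refine ⟨h1, ?_⟩
  have hlt : (Vo u).val < 2 * j + 1 := ZMod.val_lt _
  rw [h2, CL_length, dsc_cw, List.length_take, cw_len, Nat.min_eq_left hlt.le]
  · congr 1
    ring
  · rw [List.length_take, List.length_take, cw_len, he]

/-- every word has its reduced word -/
theorem red_ex {k : ℕ} (w : X k) : ∃ (j : ℕ) (u : X j) (e : List ℕ), e.length = 2 * j + 1 ∧
    w.1 = ins u.1 e ∧ j + pkn w.1 = k ∧ pkn w.1 = pkn u.1 + e.sum := by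
  refine ⟨(red w.1).1.numNodes, ⟨(red w.1).1, mem_treesOfNumNodesEq.2 rfl⟩, (red w.1).2,
    red_len w.1, (ins_red w.1).symm, ?_, ?_⟩
  · have h1 := (ins_num (red w.1).1 (red w.1).2 (red_len w.1))
    rw [ins_red] at h1
    rw [X_num] at h1
    omega
  · have h1 := (ins_num (red w.1).1 (red w.1).2 (red_len w.1)).2
    rw [ins_red] at h1
    exact h1

/-- `T` keeps the number of the peaks -/
theorem pkn_TF {k : ℕ} (w : X k) : pkn (TF w).1 = pkn w.1 := by
  obtain ⟨j, u, e, he, hw, h1, h2⟩ := red_ex w
  have h3 := (TF_ins u e he w hw).1
  have h4 := ins_num (TF u).1 (e.rotate (Vo u).val) (by rw [List.length_rotate, X_num, he])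
  rw [← h3, X_num, X_num] at h4
  omega

/-- the word `C(u, e)` as an element of `X k` -/
def insX {j k : ℕ} (u : X j) (e : List ℕ) (he : e.length = 2 * j + 1)
    (h : j + pkn u.1 + e.sum = k) : X k :=
  ⟨ins u.1 e, mem_treesOfNumNodesEq.2
    (by rw [(ins_num u.1 e (by rw [X_num]; exact he)).1, X_num, h])⟩

/-- RECURSION for elements of `X k` -/
theorem TF_insX {j k : ℕ} (u : X j) (e : List ℕ) (he : e.length = 2 * j + 1)
    (h : j + pkn u.1 + e.sum = k) :
    TF (insX u e he h) = insX (TF u) (e.rotate (Vo u).val) (by rw [List.length_rotate, he])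
      (by rw [pkn_TF, (List.rotate_perm e _).sum_eq, h]) :=
  Subtype.ext (TF_ins u e he _ rfl).1

end Pool.OddHC
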